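import Pool.Agent.Lib.NLV.Fns

/-!
# NLQ / Fns: large finite quotients of an infinite residually finite group (copy of NLV/Fns, solubility under a condition `σ`)

PROOF IN WORDS. Choose `B + 1` distinct elements of `G` (`Infinite.exists_superset_card_eq` or an embedding of `ℕ`) and add `S`: a finite set `T` with `card > B`, `S ⊆ T`. For each pair `x ≠ y` of elements of `T` a homomorphism `f` to a finite group with `f (x * y⁻¹) ≠ 1` (`hR`; `choose`). The product homomorphism over the finite set of pairs `T × T` (trivial group for `x = y`, or choose for all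
`x : {x : G // x ≠ 1}`) has finite range `H` and is injective on `T`. `S' = S.image` of the range restriction: same cardinality (injective on `S`), generates (`MonoidHom.map_closure`, surjective), `Cond`: a list in `S' ∪ {1}` is the image of a list in `S ∪ {1}` (choose preimages, `List.map`); `PiGroup` passes to images; `B < card T ≤ Nat.card H`.
-/

set_option autoImplicit false

namespace NLQ

open NLB NLT NLU Module

variable (p : ℕ) [Fact p.Prime]

private theorem fin_image (ℓ : List ℕ) (N q : ℕ) (G : Type) [Group G] (hG : PiGroup ℓ G) (S : Finset G)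
    (hc : Subgroup.closure (S : Set G) = ⊤) (hC : Cond N q S) (B : ℕ) (T : Finset G) (hST : S ⊆ T) (hT : B < T.card)
    (H : Type) [Group H] [Finite H] (φ : G →* H) (hs : Function.Surjective φ)
    (hinj : ∀ x ∈ T, ∀ y ∈ T, φ x = φ y → x = y) :
    ∃ S' : Finset H, PiGroup ℓ H ∧ S'.card = S.card ∧
      Subgroup.closure (S' : Set H) = ⊤ ∧ Cond N q S' ∧ B < Nat.card H := by
  classical
  refine ⟨S.image φ, ?_, ?_, ?_, ?_, ?_⟩
  · intro y
    obtain ⟨x, rfl⟩ := hs y
    obtain ⟨m, h1, h2, h3⟩ := hG x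
    exact ⟨m, h1, by rw [← map_pow, h2, map_one], h3⟩
  · exact Finset.card_image_of_injOn fun x hx y hy h => hinj x (hST hx) y (hST hy) h
  · rw [Finset.coe_image, ← MonoidHom.map_closure, hc]
    exact Subgroup.map_top_of_surjective φ hs
  · intro l hl hx
    have key : ∀ l : List H, (∀ x ∈ l, x ∈ S.image φ ∨ x = 1) →
        ∃ l' : List G, l'.length = l.length ∧ (∀ x ∈ l', x ∈ S ∨ x = 1) ∧ l'.map φ = l := by
      intro l
      induction l with
      | nil => exact fun _ => ⟨[], rfl, by simp, rfl⟩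
      | cons a l ih =>
        intro h
        obtain ⟨l', h1, h2, h3⟩ := ih fun x hx => h x (List.mem_cons_of_mem _ hx)
        obtain ⟨b, hb, hba⟩ : ∃ b : G, (b ∈ S ∨ b = 1) ∧ φ b = a := by
          rcases h a List.mem_cons_self with h4 | h4
          · rw [Finset.mem_image] at h4
            obtain ⟨b, hb, rfl⟩ := h4
            exact ⟨b, Or.inl hb, rfl⟩
          · exact ⟨1, Or.inr rfl, by rw [map_one, h4]⟩
        refine ⟨b :: l', by rw [List.length_cons, List.length_cons, h1], ?_, ?_⟩
        · intro x hx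
          rcases List.mem_cons.1 hx with rfl | hx
          · exact hb
          · exact h2 x hx
        · rw [List.map_cons, hba, h3]
    obtain ⟨l', h1, h2, h3⟩ := key l hx
    rw [← h3, ← map_list_prod, ← map_pow, hC l' (h1.trans hl) h2, map_one]
  · refine lt_of_lt_of_le hT ?_
    have := Fintype.ofFinite H
    rw [Nat.card_eq_fintype_card, ← Finset.card_univ,
      ← Finset.card_image_of_injOn (f := φ) (s := T) fun x hx y hy h => hinj x hx y hy h]
    exact Finset.card_le_card (Finset.subset_univ _)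

theorem large_flag (σ : Prop) (ℓ : List ℕ) (N q : ℕ) (G : Type) [Group G] [Infinite G] (hG : PiGroup ℓ G) (S : Finset G)
    (hc : Subgroup.closure (S : Set G) = ⊤) (hC : Cond N q S)
    (hR : ∀ x : G, x ≠ 1 → ∃ (Q : Type) (_ : Group Q) (f : G →* Q), Finite Q ∧ (σ → Group.IsSolvable Q) ∧ f x ≠ 1) (B : ℕ) :
    ∃ (H : Type) (_ : Group H) (S' : Finset H), Finite H ∧ (σ → Group.IsSolvable H) ∧ PiGroup ℓ H ∧ S'.card = S.card ∧
      Subgroup.closure (S' : Set H) = ⊤ ∧ Cond N q S' ∧ B < Nat.card H := by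
  classical
  obtain ⟨T, hST, hT⟩ := Infinite.exists_superset_card_eq S (S.card + (B + 1)) (Nat.le_add_right _ _)
  choose Q hQ f hf hfs hfx using hR
  let D : Finset G := ((T ×ˢ T).image (fun z : G × G => z.1 * z.2⁻¹)).filter (fun z => z ≠ 1)
  have hD : ∀ d : D, d.1 ≠ 1 := fun d => (Finset.mem_filter.1 d.2).2
  let _ : ∀ d : D, Group (Q d.1 (hD d)) := fun d => hQ d.1 (hD d)
  have _ : ∀ d : D, Finite (Q d.1 (hD d)) := fun d => hf d.1 (hD d)
  have hsol : σ → Group.IsSolvable (∀ d : D, Q d.1 (hD d)) := fun h => NLV.pi_sol (fun d : D => Q d.1 (hD d)) fun d => hfs d.1 (hD d) h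
  let F : G →* (∀ d : D, Q d.1 (hD d)) := MonoidHom.pi fun d => f d.1 (hD d)
  have hinj : ∀ x ∈ T, ∀ y ∈ T, F.rangeRestrict x = F.rangeRestrict y → x = y := by
    intro x hx y hy h
    by_contra hne
    have h0 : x * y⁻¹ ≠ 1 := fun h => hne (mul_inv_eq_one.1 h)
    have hm : x * y⁻¹ ∈ D :=
      Finset.mem_filter.2 ⟨Finset.mem_image.2 ⟨(x, y), Finset.mem_product.2 ⟨hx, hy⟩, rfl⟩, h0⟩
    have h1 : F x = F y := congrArg Subtype.val h
    have h2 : F (x * y⁻¹) = 1 := by rw [map_mul, map_inv, h1, mul_inv_cancel]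
    have h3 := congrFun h2 ⟨x * y⁻¹, hm⟩
    exact hfx (x * y⁻¹) h0 h3
  obtain ⟨S', h1, h2, h3, h4, h5⟩ := fin_image ℓ N q G hG S hc hC B T hST (by omega) F.range F.rangeRestrict
    F.rangeRestrict_surjective hinj
  exact ⟨F.range, inferInstance, S', inferInstance, fun h => by
    have := hsol h
    infer_instance, h1, h2, h3, h4, h5⟩

end NLQ
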