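import Pool.Agent.Lib.NLB.Tor

/-!
# NLQ / Numq: numbers (NLK/Numk with weight `q`)
-/

set_option autoImplicit false

namespace NLQ

open NLB

theorem numq (q m r c : ℕ) (hq : 2 ≤ q) (hc : 1 ≤ c) (h : 2 ^ (q + 1) * c ≤ m ^ (q - 1)) (hr : m + 1 ≤ r) :
    ∃ (t : ℝ) (s0 : ℕ), 0 < t ∧ t < 1 ∧ 1 ≤ s0 ∧
    ∀ M, ∑ w ∈ Finset.Icc 1 M, ((m * ((if w = q then c else 0) + (if s0 ≤ w then 1 else 0)) : ℕ) : ℝ) * t ^ w ≤
      (r : ℝ) * t - 1 := by
  have hm2 : 2 ≤ m := by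
    by_contra hcon
    have h1 : m ≤ 1 := by omega
    have h2 : m ^ (q - 1) ≤ 1 := Nat.pow_le_one_iff (by omega) |>.2 h1
    have h3 : 2 ≤ 2 ^ (q + 1) := by
      calc 2 = 2 ^ 1 := rfl
        _ ≤ 2 ^ (q + 1) := Nat.pow_le_pow_right (by norm_num) (by omega)
    have h4 : 2 ^ (q + 1) ≤ 2 ^ (q + 1) * c := Nat.le_mul_of_pos_right _ hc
    omega
  have hm : (2 : ℝ) ≤ m := by exact_mod_cast hm2
  have hrm : (m : ℝ) + 1 ≤ r := by exact_mod_cast hr
  have hm0 : (0 : ℝ) < (r : ℝ) := by linarith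
  have ht : (0 : ℝ) < 2 / (r : ℝ) := by positivity
  have ht1 : 2 / (r : ℝ) < 1 := by
    rw [div_lt_one hm0]
    linarith
  obtain ⟨s, hs⟩ := exists_pow_lt_of_lt_one (show (0 : ℝ) < (1 - 2 / (r : ℝ)) / (2 * m) from
    div_pos (sub_pos.2 ht1) (by linarith)) ht1
  refine ⟨2 / (r : ℝ), s + 1, ht, ht1, by omega, fun M => ?_⟩
  set t : ℝ := 2 / (r : ℝ) with htdef
  have h1 : (r : ℝ) * t - 1 = 1 := by
    rw [htdef]
    field_simp
    norm_num
  rw [h1]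
  have hsplit : ∑ w ∈ Finset.Icc 1 M, ((m * ((if w = q then c else 0) + (if s + 1 ≤ w then 1 else 0)) : ℕ) : ℝ) * t ^ w =
      ∑ w ∈ Finset.Icc 1 M, (if w = q then (m : ℝ) * c * t ^ q else 0) +
      m * ∑ w ∈ Finset.Icc 1 M, ((if s + 1 ≤ w then 1 else 0 : ℕ) : ℝ) * t ^ w := by
    rw [Finset.mul_sum, ← Finset.sum_add_distrib]
    refine Finset.sum_congr rfl fun w _ => ?_
    by_cases hw : w = q
    · subst hw
      simp only [if_true]
      push_cast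
      ring
    · simp only [hw, if_false]
      push_cast
      ring
  rw [hsplit]
  have h2 : ∑ w ∈ Finset.Icc 1 M, (if w = q then (m : ℝ) * c * t ^ q else 0) ≤ (m : ℝ) * c * t ^ q := by
    rw [Finset.sum_ite_eq']
    split_ifs
    · exact le_rfl
    · positivity
  have h3 : (m : ℝ) * c * t ^ q ≤ 1 / 2 := by
    rw [htdef, div_pow, mul_div_assoc', div_le_iff₀ (by positivity)]
    have h4 : m * (2 ^ (q + 1) * c) ≤ r ^ q := by
      calc m * (2 ^ (q + 1) * c) ≤ m * m ^ (q - 1) := Nat.mul_le_mul_left _ h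
        _ = m ^ q := by
          rw [← pow_succ', Nat.sub_add_cancel (by omega)]
        _ ≤ r ^ q := Nat.pow_le_pow_left (by omega) _
    have h5 : (m : ℝ) * (2 ^ (q + 1) * c) ≤ (r : ℝ) ^ q := by exact_mod_cast h4
    have h6 : (m : ℝ) * (2 ^ (q + 1) * c) = 2 * (m * c * 2 ^ q) := by ring
    linarith
  have h4 : (m : ℝ) * ∑ w ∈ Finset.Icc 1 M, ((if s + 1 ≤ w then 1 else 0 : ℕ) : ℝ) * t ^ w ≤ 1 / 2 := by
    have h5 := tail_sum t ht ht1 (s + 1) M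
    have h6 : t ^ (s + 1) ≤ (1 - t) / (2 * m) := by
      have : t ^ (s + 1) ≤ t ^ s := pow_le_pow_of_le_one ht.le ht1.le (Nat.le_succ s)
      exact this.trans hs.le
    have h7 : t ^ (s + 1) / (1 - t) ≤ 1 / (2 * m) := by
      rw [div_le_iff₀ (sub_pos.2 ht1)]
      calc t ^ (s + 1) ≤ (1 - t) / (2 * m) := h6
        _ = 1 / (2 * m) * (1 - t) := by ring
    calc (m : ℝ) * ∑ w ∈ Finset.Icc 1 M, ((if s + 1 ≤ w then 1 else 0 : ℕ) : ℝ) * t ^ w ≤ m * (1 / (2 * m)) :=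
          mul_le_mul_of_nonneg_left (h5.trans h7) (by linarith)
      _ = 1 / 2 := by
          field_simp
  linarith

end NLQ
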