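import Pool.Agent.Lib.NLK.Mul

/-!
# NLQ / Rel: the relations (copy of NLK/Rem with exponent `e * p ^ a` and weight `p ^ a`)
-/

set_option autoImplicit false

namespace NLQ

open Module NLK

variable (κ : Type) [Fintype κ] [DecidableEq κ] (p : ℕ) [Fact p.Prime]

private def wlU (N : ℕ) : Finset (List κ) :=
  (Finset.range (N + 1)).biUnion fun i => Finset.univ.image fun f : Fin i → κ => List.ofFn f

private theorem mem_wlU (N : ℕ) (l : List κ) (h : l.length ≤ N) : l ∈ wlU κ N := by
  refine Finset.mem_biUnion.2 ⟨l.length, Finset.mem_range.2 (by omega), ?_⟩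
  exact Finset.mem_image.2 ⟨l.get, Finset.mem_univ _, List.ofFn_get l⟩

private theorem card_wlU (hk : 2 ≤ Fintype.card κ) (N : ℕ) : (wlU κ N).card ≤ Fintype.card κ ^ (N + 1) := by
  refine Finset.card_biUnion_le.trans ?_
  have h1 : ∀ i ∈ Finset.range (N + 1), (Finset.univ.image fun f : Fin i → κ => List.ofFn f).card ≤ Fintype.card κ ^ i := by
    intro i _
    refine Finset.card_image_le.trans ?_
    simp
  refine (Finset.sum_le_sum h1).trans ?_
  have h2 := Nat.geomSum_lt (m := Fintype.card κ) (n := N + 1) (s := Finset.range (N + 1)) hk (fun i hi => Finset.mem_range.1 hi)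
  exact h2.le

private theorem cntU : ∃ f : ℕ → FreeGroup κ, Function.Surjective f := by
  have h : Countable (FreeGroup κ) := by
    have h1 : Function.Surjective (FreeGroup.mk : List (κ × Bool) → FreeGroup κ) := Quot.mk_surjective
    exact h1.countable
  exact exists_surjective_nat _

private theorem keyU (I : Submodule (ZMod p) (R κ p)) (e : ℕ)
    (hb : ∀ g : (FreeGroup κ), u κ p g ^ e - 1 ∈ I) (g : (FreeGroup κ)) (j : ℕ) : u κ p g ^ (e * p ^ j) - 1 ∈ Iw κ p I (p ^ j) := by
  have : CharP (R κ p) p := charP_of_injective_algebraMap (algebraMap (ZMod p) (R κ p)).injective p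
  have e1 : u κ p g ^ (e * p ^ j) - 1 = (u κ p g ^ e - 1) ^ p ^ j := by
    rw [sub_pow_char_pow_of_commute _ _ (Commute.one_right _), one_pow, ← pow_mul]
  rw [e1]
  exact Iw_pow κ p I (hb g) _

theorem exists_relq (a : ℕ) (ha : 1 ≤ a) (hk : 2 ≤ Fintype.card κ) (I : Submodule (ZMod p) (R κ p)) (hI : TwoSided κ p I) (e N s0 : ℕ) (hs : 1 ≤ s0)
    (hb : ∀ g : (FreeGroup κ), u κ p g ^ e - 1 ∈ I) :
    ∃ (V : Submodule (ZMod p) (R κ p)) (B : ℕ → Finset (R κ p)), V ≤ I ∧ GenI κ p I V B ∧
      (∀ l : List κ, l.length ≤ N → u κ p (pw l) ^ (e * p ^ a) - 1 ∈ V) ∧ (∀ g : (FreeGroup κ), ∃ j : ℕ, u κ p g ^ (e * p ^ j) - 1 ∈ V) ∧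
      ∀ w, (B w).card ≤ (if w = p ^ a then Fintype.card κ ^ (N + 1) else 0) + (if s0 ≤ w then 1 else 0) := by
  classical
  obtain ⟨f, hf⟩ := cntU κ
  have hp := (Fact.out : p.Prime).one_lt
  have hkey := keyU κ p I e hb
  have hkj : ∀ (g : (FreeGroup κ)) (j : ℕ), u κ p g ^ (e * p ^ j) - 1 ∈ Iw κ p I j := fun g j =>
    Iw_anti κ p I hI (Nat.lt_pow_self hp).le (hkey g j)
  let W : Finset (R κ p) := (wlU κ N).image fun l => u κ p (pw l) ^ (e * p ^ a) - 1
  have hW : ∀ v ∈ W, v ∈ Iw κ p I (p ^ a) := by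
    intro v hv
    obtain ⟨l, _, rfl⟩ := Finset.mem_image.1 hv
    exact hkey (pw l) a
  let tr : ℕ → R κ p := fun w => u κ p (f (w - s0)) ^ (e * p ^ w) - 1
  have htr : ∀ w, tr w ∈ Iw κ p I w := fun w => hkj _ w
  have hI1 : ∀ w, 1 ≤ w → Iw κ p I w ≤ I := by
    intro w hw
    have h1 := Iw_anti κ p I hI hw
    rwa [Iw_one κ p I hI] at h1
  refine ⟨Submodule.span (ZMod p) ((W : Set (R κ p)) ∪ {x | ∃ w, s0 ≤ w ∧ x = tr w}),
    fun w => (if w = p ^ a then W else ∅) ∪ (if s0 ≤ w then {tr w} else ∅), ?_, ⟨?_, ?_⟩, ?_, ?_, ?_⟩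
  · refine Submodule.span_le.2 ?_
    rintro x (hx | ⟨w, hw, rfl⟩)
    · exact hI1 (p ^ a) (Nat.one_le_pow _ _ (by omega)) (hW x hx)
    · exact hI1 w (by omega) (htr w)
  · intro w v hv
    rcases Finset.mem_union.1 hv with h | h
    · split_ifs at h with h2
      · subst h2
        exact hW v h
      · exact absurd h (Finset.notMem_empty v)
    · split_ifs at h with h2
      · rw [Finset.mem_singleton] at h
        subst h
        exact htr w
      · exact absurd h (Finset.notMem_empty v)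
  · intro n
    refine Submodule.span_le.2 ?_
    rintro x (hx | ⟨w, hw, rfl⟩)
    · by_cases h : p ^ a ≤ n
      · refine Submodule.mem_sup_left (Submodule.mem_iSup_of_mem (p ^ a)
          (Submodule.mem_iSup_of_mem (Finset.mem_Icc.2 ⟨Nat.one_le_pow _ _ (by omega), h⟩) ?_))
        refine Submodule.subset_span (Finset.mem_coe.2 (Finset.mem_union_left _ ?_))
        rw [if_pos rfl]
        exact hx
      · exact Submodule.mem_sup_right (Iw_anti κ p I hI (by omega) (hW x hx))
    · by_cases h : w ≤ n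
      · refine Submodule.mem_sup_left (Submodule.mem_iSup_of_mem w
          (Submodule.mem_iSup_of_mem (Finset.mem_Icc.2 ⟨by omega, h⟩) ?_))
        refine Submodule.subset_span (Finset.mem_coe.2 (Finset.mem_union_right _ ?_))
        rw [if_pos hw]
        exact Finset.mem_singleton_self _
      · exact Submodule.mem_sup_right (Iw_anti κ p I hI (by omega) (htr w))
  · intro l hl
    exact Submodule.subset_span (Or.inl (Finset.mem_coe.2 (Finset.mem_image.2 ⟨l, mem_wlU κ N l hl, rfl⟩)))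
  · intro g
    obtain ⟨i, rfl⟩ := hf g
    refine ⟨s0 + i, Submodule.subset_span (Or.inr ⟨s0 + i, by omega, ?_⟩)⟩
    show _ = u κ p (f (s0 + i - s0)) ^ (e * p ^ (s0 + i)) - 1
    rw [Nat.add_sub_cancel_left]
  · intro w
    refine (Finset.card_union_le _ _).trans (Nat.add_le_add ?_ ?_)
    · split_ifs
      · exact Finset.card_image_le.trans (card_wlU κ hk N)
      · exact le_of_eq Finset.card_empty
    · split_ifs
      · exact le_of_eq (Finset.card_singleton _)
      · exact le_of_eq Finset.card_empty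

end NLQ
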