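import Pool.Agent.Lib.NLQ.Tor
import Pool.Agent.Lib.NLQ.Pad
import Pool.Agent.Lib.NLQ.Fns
import Pool.Agent.Lib.NLQ.Rel
import Pool.Agent.Lib.NLQ.Numq
import Pool.Agent.Lib.NLK.Fin

/-!
# NLQ / Fin: the lower bound from an arbitrary finite quotient of a free group

As NLK/Fin, with an arbitrary normal subgroup `K` of finite index in the free group in place of the subgroups
constructed there (`NLK.exists_good`), and with weight `q = p ^ a` for the relations `w ^ (m * q)`.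
-/

set_option autoImplicit false

namespace NLQ

open Module NLK

section

variable (κ : Type) [Fintype κ] [DecidableEq κ]

/-- the infinite torsion group -/
theorem quot_inf (σ : Prop) (hk : 2 ≤ Fintype.card κ) (p : ℕ) [Fact p.Prime] (a : ℕ) (ha : 1 ≤ a) (m : ℕ) (hm0 : 0 < m) (ℓ : List ℕ)
    (hpl : p ∈ ℓ) (hml : ∀ r : ℕ, r.Prime → r ∣ m → r ∈ ℓ) (N : ℕ) (K : Subgroup (FreeGroup κ)) (hn : K.Normal)
    (hf : K.FiniteIndex) (he : ∀ g, g ^ m ∈ K) (hi : 2 ^ (p ^ a + 1) * Fintype.card κ ^ (N + 1) ≤ K.index ^ (p ^ a - 1))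
    (hσ : σ → ∃ d, derivedSeries (FreeGroup κ) d ≤ K) :
    ∃ (G : Type) (_ : Group G) (S : Finset G), Infinite G ∧ NLU.PiGroup ℓ G ∧ S.card ≤ Fintype.card κ ∧
      Subgroup.closure (S : Set G) = ⊤ ∧ NLB.Cond N (m * p ^ a) S ∧
      ∀ x : G, x ≠ 1 → ∃ (Q : Type) (_ : Group Q) (f : G →* Q), Finite Q ∧ (σ → Group.IsSolvable Q) ∧ f x ≠ 1 := by
  have hk1 : 1 ≤ Fintype.card κ := by omega
  have hI := IK_two κ p K hn
  have hfin : FiniteDimensional (ZMod p) (R κ p ⧸ IK κ p K) := IK_fin κ p K hf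
  have hq : 2 ≤ p ^ a := by
    calc 2 ≤ p := (Fact.out : p.Prime).two_le
      _ = p ^ 1 := (pow_one p).symm
      _ ≤ p ^ a := Nat.pow_le_pow_right (Fact.out : p.Prime).pos ha
  have hm : 2 ^ (p ^ a + 1) * Fintype.card κ ^ (N + 1) ≤ finrank (ZMod p) (R κ p ⧸ IK κ p K) ^ (p ^ a - 1) :=
    hi.trans (Nat.pow_le_pow_left (IK_idx κ p K hf) _)
  obtain ⟨ι, _, _, β, D, hι, hfr⟩ := exists_fr_fin κ p hk1 (IK κ p K) hI.l hfin (one_not κ p _ (IK_le κ p K))
  have hfw := fin_Iw κ p (IK κ p K) hfin β D hfr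
  obtain ⟨T, hT, hTs⟩ := exists_T κ p (IK κ p K)
  have hc1 : 1 ≤ Fintype.card κ ^ (N + 1) := Nat.one_le_pow _ _ hk1
  have hr : finrank (ZMod p) (R κ p ⧸ IK κ p K) + 1 ≤ (Fintype.card κ - 1) * finrank (ZMod p) (R κ p ⧸ IK κ p K) + 1 :=
    Nat.succ_le_succ (Nat.le_mul_of_pos_left _ (by omega))
  obtain ⟨t, s0, ht, ht1, hs0, hsum⟩ := numq (p ^ a) (finrank (ZMod p) (R κ p ⧸ IK κ p K))
    ((Fintype.card κ - 1) * finrank (ZMod p) (R κ p ⧸ IK κ p K) + 1) (Fintype.card κ ^ (N + 1)) hq hc1 hm hr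
  obtain ⟨V, B, hV, hB, hw, htor, hcard⟩ := exists_relq κ p a ha hk (IK κ p K) hI m N s0 hs0 (fun g => by
    rw [← u_pow]
    exact IK_mem κ p K _ (he g))
  refine torsion_flag σ κ p (m * p ^ a) N m hm0 ℓ hpl hml (IK κ p K) V hI (fun n => ?_) hw htor
    (fun C => ?_) (fun h => ?_)
  · have := hfw n
    exact Module.Finite.of_surjective
      (Submodule.factor (le_sup_right : Iw κ p (IK κ p K) n ≤ Jd κ p V ⊔ Iw κ p (IK κ p K) n)) (Submodule.factor_surjective _)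
  · have hineq := gs_ineq_fin κ p (IK κ p K) V hI hfw hV β D hfr T hTs B hB
    rw [hι] at hineq
    have hm1 : 1 ≤ finrank (ZMod p) (R κ p ⧸ IK κ p K) := by
      rcases Nat.eq_zero_or_pos (finrank (ZMod p) (R κ p ⧸ IK κ p K)) with h0 | h0
      · rw [h0, zero_pow (by omega)] at hm
        have h2 : 0 < 2 ^ (p ^ a + 1) * Fintype.card κ ^ (N + 1) := Nat.mul_pos (pow_pos (by norm_num) _) hc1
        omega
      · exact h0
    have h1 : 1 ≤ bI κ p (IK κ p K) V 1 := by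
      have h2 := hineq 0
      simp only [Finset.Icc_eq_empty_of_lt (show (0 : ℕ) < 1 by norm_num), Finset.sum_empty, add_zero, zero_add] at h2
      exact le_trans hm1 (le_trans (Nat.le_add_right _ _) h2)
    have hgrow := NLT.growth_rel ((Fintype.card κ - 1) * finrank (ZMod p) (R κ p ⧸ IK κ p K) + 1) (bI κ p (IK κ p K) V)
      (fun w => T.card * (B w).card) t ht ht1.le h1
      (fun n => le_trans (by omega) (hineq n)) (fun M => by
        refine le_trans (Finset.sum_le_sum fun w _ => ?_) (hsum M)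
        refine mul_le_mul_of_nonneg_right ?_ (by positivity)
        rw [hT]
        exact_mod_cast Nat.mul_le_mul_left _ (hcard w))
    have hτ : 1 < 1 / t := by
      rw [lt_div_iff₀ ht, one_mul]
      exact ht1
    obtain ⟨n, hn'⟩ := pow_unbounded_of_one_lt (C : ℝ) hτ
    refine ⟨n + 1, ?_⟩
    exact_mod_cast hn'.trans_le (hgrow n)
  · obtain ⟨d, hd⟩ := hσ h
    exact ⟨d, fun g hg => IK_mem κ p K g (hd hg)⟩

end

/-- a generating set with at most `k` elements gives a homomorphism from the free group of rank `k` onto the group -/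
theorem exists_onto (k : ℕ) (Q : Type) [Group Q] (A : Finset Q) (hA : A.card ≤ k) (hgen : Subgroup.closure (A : Set Q) = ⊤) :
    ∃ φ : FreeGroup (Fin k) →* Q, Function.Surjective φ := by
  classical
  let a : Fin k → Q := fun i => if h : (i : ℕ) < A.card then (A.equivFin.symm ⟨i, h⟩ : Q) else 1
  refine ⟨FreeGroup.lift a, ?_⟩
  rw [← MonoidHom.range_eq_top, eq_top_iff, ← hgen, Subgroup.closure_le]
  intro g hg
  have h1 := (A.equivFin ⟨g, hg⟩).2
  refine ⟨FreeGroup.of ⟨A.equivFin ⟨g, hg⟩, lt_of_lt_of_le h1 hA⟩, ?_⟩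
  rw [FreeGroup.lift_apply_of]
  simp only [a]
  rw [dif_pos h1]
  simp

/-- the lower bound from a finite group of exponent dividing `m` -/
theorem quot_k (ℓ : List ℕ) (p a m k n N : ℕ) (hp : p.Prime) (ha : 1 ≤ a) (hpl : p ∈ ℓ) (hm0 : 0 < m)
    (hml : ∀ r : ℕ, r.Prime → r ∣ m → r ∈ ℓ) (hk : 2 ≤ k) (hn : p ^ a * m ∣ n) (Q : Type) [Group Q] [Finite Q] (A : Finset Q)
    (hA : A.card ≤ k) (hgen : Subgroup.closure (A : Set Q) = ⊤) (he : ∀ g : Q, g ^ m = 1)
    (hN : 2 ^ (p ^ a + 1) * k ^ (N + 1) ≤ Nat.card Q ^ (p ^ a - 1)) :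
    (∀ C : ℕ, ∃ (G : Type) (_ : Group G) (S : Finset G), Finite G ∧ (Group.IsSolvable Q → Group.IsSolvable G) ∧
      NLU.PiGroup ℓ G ∧ S.card = k ∧ Subgroup.closure (S : Set G) = ⊤ ∧ NLB.Cond N n S ∧ C < Nat.card G) ∧
    ∃ (G : Type) (_ : Group G) (S : Finset G), Infinite G ∧ NLU.PiGroup ℓ G ∧ S.card = k ∧ Subgroup.closure (S : Set G) = ⊤ ∧
      NLB.Cond N n S ∧ ∀ x : G, x ≠ 1 → ∃ (P : Type) (_ : Group P) (f : G →* P), Finite P ∧
        (Group.IsSolvable Q → Group.IsSolvable P) ∧ f x ≠ 1 := by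
  have : Fact p.Prime := ⟨hp⟩
  obtain ⟨φ, hφ⟩ := exists_onto k Q A hA hgen
  have hcf : Fintype.card (Fin k) = k := Fintype.card_fin k
  have hidx : φ.ker.index = Nat.card Q := by
    rw [Subgroup.index_ker]
    rw [MonoidHom.range_eq_top.2 hφ]
    exact Nat.card_congr Subgroup.topEquiv.toEquiv
  have hf : φ.ker.FiniteIndex := ⟨by
    rw [hidx]
    exact Nat.card_pos.ne'⟩
  obtain ⟨G, _, S, hinf, hpg, hSc, hcl, hcond, hR⟩ :=
    quot_inf (Fin k) (Group.IsSolvable Q) (by rw [hcf]; exact hk) p a ha m hm0 ℓ hpl hml N φ.ker inferInstance hf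
      (fun g => by rw [MonoidHom.mem_ker, map_pow, he]) (by rw [hcf, hidx]; exact hN) (fun h => by
        obtain ⟨d, hd⟩ := h.solvable
        refine ⟨d, fun g hg => ?_⟩
        rw [MonoidHom.mem_ker]
        have h1 : φ g ∈ derivedSeries Q d := map_derivedSeries_le_derivedSeries φ d (Subgroup.mem_map_of_mem _ hg)
        rw [hd, Subgroup.mem_bot] at h1
        exact h1)
  rw [hcf] at hSc
  obtain ⟨G', _, S', hinf', hpg', hSc', hcl', hcond', hR'⟩ :=
    pad_flag (Group.IsSolvable Q) ℓ p N (m * p ^ a) k (dvd_mul_of_dvd_right (dvd_pow_self p (by omega)) m) G hpl hpg S hSc hcl hcond hR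
  have hcn : NLB.Cond N n S' := by
    intro w hw hx
    rw [mul_comm] at hn
    obtain ⟨c, rfl⟩ := hn
    rw [pow_mul, hcond' w hw hx, one_pow]
  refine ⟨fun C => ?_, G', inferInstance, S', hinf', hpg', hSc', hcl', hcn, hR'⟩
  obtain ⟨H, _, S'', h1, h7, h2, h3, h4, h5, h6⟩ := large_flag (Group.IsSolvable Q) ℓ N n G' hpg' S' hcl' hcn hR' C
  exact ⟨H, inferInstance, S'', h1, h7, h2, h3.trans hSc', h4, h5, h6⟩

/-- soluble groups of tower order -/
theorem exists_tower (k : ℕ) (hk : 1 ≤ k) (l : List ℕ) (hl : ∀ r ∈ l, r.Prime) :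
    ∃ (Q : Type) (_ : Group Q) (A : Finset Q), Finite Q ∧ Group.IsSolvable Q ∧ A.card ≤ k ∧
      Subgroup.closure (A : Set Q) = ⊤ ∧ (∀ g : Q, g ^ l.prod = 1) ∧ tk k l ≤ Nat.card Q := by
  classical
  have hcf : Fintype.card (Fin k) = k := Fintype.card_fin k
  obtain ⟨K, ⟨hn, hf, he, hi⟩, d, hd⟩ := exists_good (Fin k) (by rw [hcf]; exact hk) l hl
  rw [hcf] at hi
  refine ⟨FreeGroup (Fin k) ⧸ K, inferInstance, Finset.univ.image fun i => QuotientGroup.mk' K (FreeGroup.of i),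
    Subgroup.finite_quotient_of_finiteIndex, ?_, ?_, ?_, ?_, ?_⟩
  · refine ⟨d, ?_⟩
    rw [← map_derivedSeries_eq (QuotientGroup.mk'_surjective K), eq_bot_iff]
    rintro _ ⟨g, hg, rfl⟩
    rw [Subgroup.mem_bot]
    exact (QuotientGroup.eq_one_iff g).2 (hd hg)
  · refine Finset.card_image_le.trans ?_
    rw [Finset.card_univ, hcf]
  · have e1 : (((Finset.univ.image fun i => QuotientGroup.mk' K (FreeGroup.of i)) : Finset (FreeGroup (Fin k) ⧸ K)) : Set (FreeGroup (Fin k) ⧸ K))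
        = (QuotientGroup.mk' K) '' (Set.range (FreeGroup.of : Fin k → FreeGroup (Fin k))) := by
      rw [Finset.coe_image, Finset.coe_univ, Set.image_univ, ← Set.range_comp]
      rfl
    rw [e1, ← MonoidHom.map_closure, FreeGroup.closure_range_of,
      Subgroup.map_top_of_surjective _ (QuotientGroup.mk'_surjective K)]
  · intro x
    obtain ⟨g, rfl⟩ := QuotientGroup.mk'_surjective K x
    rw [← map_pow]
    exact (QuotientGroup.eq_one_iff _).2 (he g)
  · exact hi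

end NLQ
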